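import Mathlib

/-!
# Project MC (helper994), piece INQ, analytic part (helper56)
-/

set_option autoImplicit false

namespace Run7.h56.MC

open Finset

/-- the inverse function of `n ↦ s n^(1/d) + t` -/
noncomputable def G (s : ℝ) (d : ℕ) (t u : ℝ) : ℝ := (max (u - t) 0 / s) ^ d

section basic

variable {s : ℝ} {d : ℕ} {t : ℝ}

theorem G_nonneg (hs : 0 < s) (u : ℝ) : 0 ≤ G s d t u := by
  unfold G
  have : 0 ≤ max (u - t) 0 := le_max_right _ _
  positivity

theorem G_mono (hs : 0 < s) : Monotone (G s d t) := by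
  intro u v h
  unfold G
  have h1 : 0 ≤ max (u - t) 0 := le_max_right _ _
  have h2 : max (u - t) 0 ≤ max (v - t) 0 := max_le_max (by linarith) le_rfl
  have h3 : max (u - t) 0 / s ≤ max (v - t) 0 / s := by gcongr
  exact pow_le_pow_left₀ (by positivity) h3 d

theorem root_pow (hd : 1 ≤ d) {x : ℝ} (hx : 0 ≤ x) : (x ^ (1 / (d : ℝ))) ^ d = x := by
  rw [one_div]
  exact Real.rpow_inv_natCast_pow hx (by omega)

theorem lt_G_iff (hs : 0 < s) (hd : 1 ≤ d) {x : ℝ} (hx : 0 ≤ x) (u : ℝ) :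
    x < G s d t u ↔ s * x ^ (1 / (d : ℝ)) + t < u := by
  have ha : 0 ≤ x ^ (1 / (d : ℝ)) := Real.rpow_nonneg hx _
  have h1 : x < G s d t u ↔ x ^ (1 / (d : ℝ)) < max (u - t) 0 / s := by
    conv_lhs => rw [← root_pow hd hx]
    unfold G
    have h2 : 0 ≤ max (u - t) 0 := le_max_right _ _
    exact pow_lt_pow_iff_left₀ ha (by positivity) (by omega)
  rw [h1, lt_div_iff₀ hs, lt_max_iff]
  constructor
  · rintro (h | h)
    · linarith
    · have : 0 ≤ x ^ (1 / (d : ℝ)) * s := by positivity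
      linarith
  · intro h
    left
    linarith

theorem G_le_iff (hs : 0 < s) (hd : 1 ≤ d) {x : ℝ} (hx : 0 ≤ x) (u : ℝ) :
    G s d t u ≤ x ↔ u ≤ s * x ^ (1 / (d : ℝ)) + t := by
  rw [← not_lt, ← not_lt, lt_G_iff hs hd hx]

theorem G_convex (hs : 0 < s) : ConvexOn ℝ Set.univ (G s d t) := by
  have h1 : ConvexOn ℝ Set.univ (fun u : ℝ => max (u - t) 0 / s) := by
    refine ⟨convex_univ, fun x _ y _ a b ha hb hab => ?_⟩
    simp only [smul_eq_mul]
    rw [← mul_div_assoc, ← mul_div_assoc, ← add_div]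
    refine div_le_div_of_nonneg_right ?_ hs.le
    refine max_le ?_ ?_
    · have h2 : a * (x - t) ≤ a * max (x - t) 0 := mul_le_mul_of_nonneg_left (le_max_left _ _) ha
      have h3 : b * (y - t) ≤ b * max (y - t) 0 := mul_le_mul_of_nonneg_left (le_max_left _ _) hb
      have h4 : a * x + b * y - t = a * (x - t) + b * (y - t) := by
        linear_combination (-t) * (hab.symm)
      linarith
    · have h2 : 0 ≤ max (x - t) 0 := le_max_right _ _
      have h3 : 0 ≤ max (y - t) 0 := le_max_right _ _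
      positivity
  have h2 := h1.pow (fun x _ => by
    have : 0 ≤ max (x - t) 0 := le_max_right _ _
    positivity) d
  exact h2

theorem G_up (hs : 0 < s) {κ : ℝ} (h0 : 0 ≤ κ) (h1 : κ ≤ 1) (m : ℝ) :
    G s d t (m + κ) - G s d t m ≤ κ * (G s d t (m + 1) - G s d t m) := by
  have hc := (G_convex (s := s) (d := d) (t := t) hs).2
  have h := hc (Set.mem_univ m) (Set.mem_univ (m + 1)) (show (0 : ℝ) ≤ 1 - κ by linarith) h0 (by ring)
  simp only [smul_eq_mul] at h
  have e : (1 - κ) * m + κ * (m + 1) = m + κ := by ring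
  rw [e] at h
  linarith

theorem G_low (hs : 0 < s) {κ : ℝ} (h0 : 0 < κ) (m : ℝ) :
    κ * (G s d t m - G s d t (m - 1)) ≤ G s d t (m + κ) - G s d t m := by
  have hk : 0 < 1 + κ := by linarith
  have hc := (G_convex (s := s) (d := d) (t := t) hs).2
  have hk1 : (0 : ℝ) ≤ κ / (1 + κ) := by positivity
  have hk2 : (0 : ℝ) ≤ 1 / (1 + κ) := by positivity
  have h := hc (Set.mem_univ (m - 1)) (Set.mem_univ (m + κ)) hk1 hk2 (by field_simp; ring)
  simp only [smul_eq_mul] at h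
  have e : κ / (1 + κ) * (m - 1) + 1 / (1 + κ) * (m + κ) = m := by
    field_simp
    ring
  rw [e] at h
  have h2 : (1 + κ) * G s d t m ≤ κ * G s d t (m - 1) + G s d t (m + κ) := by
    have h3 := mul_le_mul_of_nonneg_left h hk.le
    have e2 : (1 + κ) * (κ / (1 + κ) * G s d t (m - 1) + 1 / (1 + κ) * G s d t (m + κ)) =
        κ * G s d t (m - 1) + G s d t (m + κ) := by
      field_simp
    rw [e2] at h3
    exact h3
  linarith

end basic

theorem pow_sub_le {a b : ℝ} (hb : 0 ≤ b) (hab : b ≤ a) (k : ℕ) :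
    a ^ (k + 1) - b ^ (k + 1) ≤ (k + 1) * (a - b) * a ^ k := by
  induction k with
  | zero => simp
  | succ k ih =>
    have h1 : b ^ (k + 1) ≤ a ^ (k + 1) := pow_le_pow_left₀ hb hab _
    have h2 : a ^ (k + 1 + 1) - b ^ (k + 1 + 1) = a * (a ^ (k + 1) - b ^ (k + 1)) + b ^ (k + 1) * (a - b) := by
      ring
    rw [h2]
    have ha : 0 ≤ a := hb.trans hab
    have h3 : a * (a ^ (k + 1) - b ^ (k + 1)) ≤ a * ((k + 1) * (a - b) * a ^ k) :=
      mul_le_mul_of_nonneg_left ih ha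
    have h4 : b ^ (k + 1) * (a - b) ≤ a ^ (k + 1) * (a - b) :=
      mul_le_mul_of_nonneg_right h1 (by linarith)
    push_cast
    have e : a * ((k + 1) * (a - b) * a ^ k) + a ^ (k + 1) * (a - b) = ((k : ℝ) + 1 + 1) * (a - b) * a ^ (k + 1) := by
      ring
    linarith

section bounds

variable {s : ℝ} {d : ℕ} {t : ℝ}

theorem G_th (hs : 0 < s) (a v : ℝ) : G s d t (s * a + t + v) = (max (a + v / s) 0) ^ d := by
  unfold G
  congr 1
  have e : s * a + t + v - t = s * (a + v / s) := by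
    field_simp
    ring
  rw [e, ← mul_zero s, ← mul_max_of_nonneg _ _ hs.le, mul_zero]
  field_simp

/-- upper bound -/
theorem G_above (hs : 0 < s) (hd : 1 ≤ d) {a : ℝ} (ha : 1 ≤ a) :
    G s d t (s * a + t + 1) ≤ a ^ d + d * (1 / s) * ((1 + 1 / s) * a) ^ (d - 1) := by
  obtain ⟨k, rfl⟩ : ∃ k, d = k + 1 := ⟨d - 1, by omega⟩
  rw [G_th hs, Nat.add_sub_cancel]
  have h1 : 0 < 1 / s := by positivity
  have e : max (a + 1 / s) 0 = a + 1 / s := max_eq_left (by linarith)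
  rw [e]
  have h2 := pow_sub_le (a := a + 1 / s) (b := a) (by linarith) (by linarith) k
  have h3 : a + 1 / s ≤ (1 + 1 / s) * a := by nlinarith
  have h4 : (a + 1 / s) ^ k ≤ ((1 + 1 / s) * a) ^ k := pow_le_pow_left₀ (by linarith) h3 k
  have h5 : ((k : ℝ) + 1) * (a + 1 / s - a) * (a + 1 / s) ^ k ≤ ((k : ℝ) + 1) * (1 / s) * ((1 + 1 / s) * a) ^ k := by
    have e2 : a + 1 / s - a = 1 / s := by ring
    rw [e2]
    gcongr
  push_cast
  linarith

/-- lower bound -/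
theorem G_below (hs : 0 < s) (hd : 1 ≤ d) {a v : ℝ} (ha : 0 ≤ a) (hv : 0 ≤ v) :
    a ^ d - d * (v / s) * a ^ (d - 1) ≤ G s d t (s * a + t - v) := by
  obtain ⟨k, rfl⟩ : ∃ k, d = k + 1 := ⟨d - 1, by omega⟩
  rw [sub_eq_add_neg (s * a + t), G_th hs, Nat.add_sub_cancel]
  have h1 : 0 ≤ v / s := by positivity
  have h2 : max (a + -v / s) 0 ≤ a := max_le (by rw [neg_div]; linarith) ha
  have h3 := pow_sub_le (le_max_right (a + -v / s) 0) h2 k
  have h4 : a - max (a + -v / s) 0 ≤ v / s := by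
    have := le_max_left (a + -v / s) 0
    rw [neg_div] at this ⊢
    linarith
  have h5 : ((k : ℝ) + 1) * (a - max (a + -v / s) 0) * a ^ k ≤ ((k : ℝ) + 1) * (v / s) * a ^ k := by
    gcongr
  push_cast
  linarith

end bounds

/-! ### Counting in residue classes -/

theorem card_class (q r a b : ℕ) (hq : 1 ≤ q) (hab : a ≤ b) :
    |(#((Ico a b).filter (fun n : ℕ => n ≡ r [MOD q])) : ℝ) - ((b : ℝ) - a) / q| ≤ 1 := by
  have h := Nat.Ico_filter_modEq_card a b (r := q) (by omega) r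
  have hq0 : (0 : ℚ) < q := by exact_mod_cast hq
  have h1 : ((a : ℚ) - r) / q ≤ ((b : ℚ) - r) / q := by
    have : (a : ℚ) ≤ b := by exact_mod_cast hab
    gcongr
  have h2 : ⌈((a : ℚ) - r) / q⌉ ≤ ⌈((b : ℚ) - r) / q⌉ := Int.ceil_mono h1
  rw [max_eq_left (by omega)] at h
  have h3 : (#((Ico a b).filter (fun n : ℕ => n ≡ r [MOD q])) : ℚ) =
      (⌈((b : ℚ) - r) / q⌉ : ℚ) - (⌈((a : ℚ) - r) / q⌉ : ℚ) := by
    have := congrArg (Int.cast : ℤ → ℚ) h
    push_cast at this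
    exact this
  have h4 : |(#((Ico a b).filter (fun n : ℕ => n ≡ r [MOD q])) : ℚ) - ((b : ℚ) - a) / q| ≤ 1 := by
    rw [h3, abs_le]
    have ea := Int.ceil_lt_add_one (((a : ℚ) - r) / q)
    have ea' := Int.le_ceil (((a : ℚ) - r) / q)
    have eb := Int.ceil_lt_add_one (((b : ℚ) - r) / q)
    have eb' := Int.le_ceil (((b : ℚ) - r) / q)
    have e : ((b : ℚ) - a) / q = ((b : ℚ) - r) / q - ((a : ℚ) - r) / q := by ring
    constructor <;> linarith
  have h5 : (((|(#((Ico a b).filter (fun n : ℕ => n ≡ r [MOD q])) : ℚ) - ((b : ℚ) - a) / q| : ℚ)) : ℝ) ≤ ((1 : ℚ) : ℝ) := by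
    exact_mod_cast h4
  push_cast at h5
  exact h5

/-- the `n ≡ r` with `x ≤ n < y` -/
theorem card_class_real (q r : ℕ) (hq : 1 ≤ q) {x y : ℝ} (hx : 0 ≤ x) (hxy : x ≤ y) :
    |(#((Ico ⌈x⌉₊ ⌈y⌉₊).filter (fun n : ℕ => n ≡ r [MOD q])) : ℝ) - (y - x) / q| ≤ 2 := by
  have h1 := card_class q r ⌈x⌉₊ ⌈y⌉₊ hq (Nat.ceil_mono hxy)
  have hx1 := Nat.le_ceil x
  have hx2 := Nat.ceil_lt_add_one hx
  have hy1 := Nat.le_ceil y
  have hy2 := Nat.ceil_lt_add_one (hx.trans hxy)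
  have hq0 : (1 : ℝ) ≤ q := by exact_mod_cast hq
  have h2 : |((⌈y⌉₊ : ℝ) - ⌈x⌉₊) / q - (y - x) / q| ≤ 1 := by
    rw [← sub_div, abs_div, abs_of_pos (by linarith : (0 : ℝ) < q), div_le_one (by linarith), abs_le]
    constructor <;> linarith
  rw [abs_le] at h1 h2 ⊢
  constructor <;> linarith [h1.1, h1.2, h2.1, h2.2]

end Run7.h56.MC
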