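import Pool.Agent.Run7.h994.MC.Stm
import Pool.Agent.Run7.h56.MC.INQa

/-!
# Project MC (helper994), piece INQ: the integers of the thin set in residue classes (helper56)
-/

set_option autoImplicit false

namespace Run7.h56.MC

open Finset Run7.h994.MC

/-- the function -/
noncomputable def th (s : ℝ) (d : ℕ) (t x : ℝ) : ℝ := s * x ^ (1 / (d : ℝ)) + t

theorem mem_TT {s : ℝ} {d : ℕ} {t κ : ℝ} {X n : ℕ} :
    n ∈ TT s d t κ X ↔ (X ≤ n ∧ n < 2 * X) ∧ Int.fract (th s d t n) < κ := by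
  unfold TT th
  rw [mem_filter, mem_Ico]

/-- the inverse function cut to `[X, 2X]` -/
noncomputable def Hc (s : ℝ) (d : ℕ) (t : ℝ) (X : ℕ) (u : ℝ) : ℝ :=
  max (X : ℝ) (min (G s d t u) (2 * X))

theorem clamp_mono {a b p p' : ℝ} (h : p ≤ p') : max a (min p b) ≤ max a (min p' b) :=
  max_le_max le_rfl (min_le_min h le_rfl)

theorem clamp_lip {a b p p' : ℝ} (h : p ≤ p') : max a (min p' b) - max a (min p b) ≤ p' - p := by
  have h1 : min p' b ≤ min p b + (p' - p) := by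
    rcases le_total p b with hb | hb
    · rw [min_eq_left hb]
      have := min_le_left p' b
      linarith
    · rw [min_eq_right hb]
      have := min_le_right p' b
      linarith
  have h2 : max a (min p' b) ≤ max a (min p b) + (p' - p) := by
    refine max_le ?_ ?_
    · have := le_max_left a (min p b)
      linarith
    · have := le_max_right a (min p b)
      linarith
  linarith

section main

variable {s : ℝ} {d : ℕ} {t : ℝ} {X : ℕ}

theorem Hc_mono (hs : 0 < s) : Monotone (Hc s d t X) := fun _ _ h => clamp_mono (G_mono hs h)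

theorem Hc_lip (hs : 0 < s) {u v : ℝ} (h : u ≤ v) :
    Hc s d t X v - Hc s d t X u ≤ G s d t v - G s d t u := clamp_lip (G_mono hs h)

theorem Hc_ge (u : ℝ) : (X : ℝ) ≤ Hc s d t X u := le_max_left _ _

theorem Hc_eq {u : ℝ} (h1 : (X : ℝ) ≤ G s d t u) (h2 : G s d t u ≤ 2 * X) : Hc s d t X u = G s d t u := by
  unfold Hc
  rw [min_eq_left h2, max_eq_right h1]

theorem fiber_eq (hs : 0 < s) (hd : 1 ≤ d) {κ : ℝ} (hκ1 : κ ≤ 1) (q r : ℕ) (m : ℤ) :
    ((TT s d t κ X).filter (fun n : ℕ => n ≡ r [MOD q])).filter (fun n : ℕ => ⌊th s d t n⌋ = m) =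
      (Ico ⌈Hc s d t X m⌉₊ ⌈Hc s d t X (m + κ)⌉₊).filter (fun n : ℕ => n ≡ r [MOD q]) := by
  ext n
  rw [mem_filter, mem_filter, mem_filter, mem_TT, mem_Ico, Nat.ceil_le, Nat.lt_ceil]
  have hn : (0 : ℝ) ≤ n := Nat.cast_nonneg n
  have key : ((X ≤ n ∧ n < 2 * X) ∧ Int.fract (th s d t n) < κ) ∧ ⌊th s d t n⌋ = m ↔
      Hc s d t X m ≤ n ∧ (n : ℝ) < Hc s d t X (m + κ) := by
    have hA : (⌊th s d t n⌋ = m ∧ Int.fract (th s d t n) < κ) ↔
        (G s d t m ≤ n ∧ (n : ℝ) < G s d t (m + κ)) := by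
      rw [G_le_iff hs hd hn, lt_G_iff hs hd hn]
      show _ ↔ (m : ℝ) ≤ th s d t n ∧ th s d t n < m + κ
      constructor
      · rintro ⟨h1, h2⟩
        subst h1
        have h3 := Int.floor_add_fract (th s d t n)
        have h4 := Int.floor_le (th s d t n)
        exact ⟨h4, by linarith⟩
      · rintro ⟨h1, h2⟩
        have h3 : ⌊th s d t n⌋ = m := by
          rw [Int.floor_eq_iff]
          exact ⟨h1, by linarith⟩
        refine ⟨h3, ?_⟩
        have h4 := Int.floor_add_fract (th s d t n)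
        rw [h3] at h4
        linarith
    have hB : Hc s d t X m ≤ n ∧ (n : ℝ) < Hc s d t X (m + κ) ↔
        ((X : ℝ) ≤ n ∧ (n : ℝ) < 2 * X) ∧ (G s d t m ≤ n ∧ (n : ℝ) < G s d t (m + κ)) := by
      unfold Hc
      rw [max_le_iff, lt_max_iff, lt_min_iff, min_le_iff]
      constructor
      · rintro ⟨⟨h1, h2⟩, h3⟩
        rcases h3 with h3 | ⟨h3, h4⟩
        · exact absurd h1 (not_le.2 h3)
        · refine ⟨⟨h1, h4⟩, ?_, h3⟩
          rcases h2 with h2 | h2
          · exact h2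
          · exact absurd h4 (not_lt.2 h2)
      · rintro ⟨⟨h1, h2⟩, h3, h4⟩
        exact ⟨⟨h1, Or.inl h3⟩, Or.inr ⟨h4, h2⟩⟩
    rw [hB, ← hA]
    have hC : (X ≤ n ∧ n < 2 * X) ↔ ((X : ℝ) ≤ n ∧ (n : ℝ) < 2 * X) := by
      refine and_congr Nat.cast_le.symm ?_
      rw [← Nat.cast_lt (α := ℝ)]
      push_cast
      exact Iff.rfl
    rw [hC]
    tauto
  rw [← key]
  tauto

/-- the telescoping bounds -/
theorem sum_bounds (hs : 0 < s) (hd : 1 ≤ d) {κ : ℝ} (hκ : 0 < κ) (hκ1 : κ ≤ 1) (K : ℕ)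
    (hK : ⌊th s d t X⌋ + (K : ℤ) = ⌊th s d t (2 * X)⌋) :
    ∑ j ∈ range (K + 1), (Hc s d t X (⌊th s d t X⌋ + j + κ) - Hc s d t X (⌊th s d t X⌋ + j)) ≤
        κ * (G s d t (⌊th s d t (2 * X)⌋ + 1) - G s d t ⌊th s d t X⌋) ∧
      κ * (G s d t (⌊th s d t (2 * X)⌋ - 1) - G s d t ⌊th s d t X⌋) ≤
        ∑ j ∈ range (K + 1), (Hc s d t X (⌊th s d t X⌋ + j + κ) - Hc s d t X (⌊th s d t X⌋ + j)) := by
  obtain ⟨M, hM⟩ : ∃ M : ℝ, M = (⌊th s d t X⌋ : ℝ) := ⟨_, rfl⟩
  have hM2 : (⌊th s d t (2 * X)⌋ : ℝ) = M + K := by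
    rw [← hK, hM]
    push_cast
    ring
  rw [hM2, ← hM]
  have hX0 : (0 : ℝ) ≤ X := Nat.cast_nonneg X
  have hX2 : (0 : ℝ) ≤ 2 * X := by positivity
  have hlow : ∀ u : ℝ, M + 1 ≤ u → (X : ℝ) ≤ G s d t u := by
    intro u hu
    refine ((lt_G_iff hs hd hX0 u).2 ?_).le
    have h1 := Int.lt_floor_add_one (th s d t X)
    rw [← hM] at h1
    exact h1.trans_le hu
  have hupp : ∀ u : ℝ, u ≤ M + K → G s d t u ≤ 2 * X := by
    intro u hu
    refine (G_le_iff hs hd hX2 u).2 ?_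
    have h1 := Int.floor_le (th s d t (2 * X))
    rw [hM2] at h1
    exact hu.trans h1
  constructor
  · have h1 : ∀ j ∈ range (K + 1), Hc s d t X (M + j + κ) - Hc s d t X (M + j) ≤
        κ * (G s d t (M + ((j + 1 : ℕ) : ℝ)) - G s d t (M + (j : ℕ))) := by
      intro j _
      refine (Hc_lip hs (by linarith)).trans ?_
      have h2 := G_up (s := s) (d := d) (t := t) hs hκ.le hκ1 (M + j)
      push_cast
      rw [← add_assoc]
      exact h2
    refine (Finset.sum_le_sum h1).trans ?_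
    rw [← Finset.mul_sum, Finset.sum_range_sub (fun j : ℕ => G s d t (M + (j : ℝ)))]
    push_cast
    rw [← add_assoc, add_zero]
  · have hnn : ∀ j : ℕ, 0 ≤ Hc s d t X (M + j + κ) - Hc s d t X (M + j) := fun j =>
      sub_nonneg.2 (Hc_mono hs (by linarith))
    rcases Nat.eq_zero_or_pos K with h0 | h0
    · subst h0
      have h1 : G s d t (M + (0 : ℕ) - 1) ≤ G s d t M := G_mono hs (by push_cast; linarith)
      have h2 : κ * (G s d t (M + (0 : ℕ) - 1) - G s d t M) ≤ 0 :=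
        mul_nonpos_of_nonneg_of_nonpos hκ.le (by linarith)
      exact h2.trans (Finset.sum_nonneg fun j _ => hnn j)
    · obtain ⟨k, rfl⟩ : ∃ k, K = k + 1 := ⟨K - 1, by omega⟩
      rw [Finset.sum_range_succ, Finset.sum_range_succ']
      have h1 : ∀ i ∈ range k, κ * (G s d t (M + ((i + 1 : ℕ) : ℝ)) - G s d t (M + (i : ℕ))) ≤
          Hc s d t X (M + ((i + 1 : ℕ) : ℝ) + κ) - Hc s d t X (M + ((i + 1 : ℕ) : ℝ)) := by
        intro i hi
        rw [mem_range] at hi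
        have hi' : (i : ℝ) + 1 ≤ k := by exact_mod_cast hi
        have h2 := G_low (s := s) (d := d) (t := t) hs hκ (M + ((i + 1 : ℕ) : ℝ))
        have e : M + ((i + 1 : ℕ) : ℝ) - 1 = M + (i : ℕ) := by
          push_cast
          ring
        rw [e] at h2
        rw [Hc_eq (hlow _ (by push_cast; nlinarith [Nat.cast_nonneg (α := ℝ) i]))
          (hupp _ (by push_cast; linarith)),
          Hc_eq (hlow _ (by push_cast; nlinarith [Nat.cast_nonneg (α := ℝ) i]))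
          (hupp _ (by push_cast; linarith))]
        exact h2
      have h2 := Finset.sum_le_sum h1
      rw [← Finset.mul_sum, Finset.sum_range_sub (fun j : ℕ => G s d t (M + (j : ℝ)))] at h2
      have h3 := hnn 0
      have h4 := hnn (k + 1)
      have e1 : M + ((k + 1 : ℕ) : ℝ) - 1 = M + (k : ℕ) := by
        push_cast
        ring
      rw [e1]
      push_cast at h2 h3 h4 ⊢
      rw [add_zero] at h2
      linarith

end main

/-- **INQ.** -/
theorem inq (s : ℝ) (hs : 0 < s) (d : ℕ) (hd : 2 ≤ d) : S_INQ s d := by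
  have hd1 : 1 ≤ d := by omega
  obtain ⟨C₀, hC₀⟩ : ∃ C₀ : ℝ, C₀ = d * (1 / s) * ((1 + 1 / s) * 2) ^ (d - 1) := ⟨_, rfl⟩
  have hC₀0 : 0 ≤ C₀ := by rw [hC₀]; positivity
  refine ⟨3 * (s + 2) + 4 * C₀, by nlinarith, ?_⟩
  intro X q r hX hq κ t hκ hκ1
  have hX0 : (0 : ℝ) ≤ X := Nat.cast_nonneg X
  have hX1 : (1 : ℝ) ≤ X := by exact_mod_cast hX
  have hX2 : (0 : ℝ) ≤ 2 * X := by positivity
  obtain ⟨a, ha⟩ : ∃ a : ℝ, a = (X : ℝ) ^ (1 / (d : ℝ)) := ⟨_, rfl⟩
  obtain ⟨a₂, ha₂⟩ : ∃ a₂ : ℝ, a₂ = (2 * (X : ℝ)) ^ (1 / (d : ℝ)) := ⟨_, rfl⟩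
  have had : a ^ d = X := by rw [ha]; exact root_pow hd1 hX0
  have had2 : a₂ ^ d = 2 * X := by rw [ha₂]; exact root_pow hd1 hX2
  have hdp : (0 : ℝ) < d := by exact_mod_cast hd1
  have ha1 : 1 ≤ a := by rw [ha]; exact Real.one_le_rpow hX1 (by positivity)
  have haa : a ≤ a₂ := by
    rw [ha, ha₂]
    exact Real.rpow_le_rpow hX0 (by linarith) (by positivity)
  have ha22 : a₂ ≤ 2 * a := by
    refine (pow_le_pow_iff_left₀ (by linarith) (by positivity) (by omega : d ≠ 0)).1 ?_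
    rw [had2, mul_pow, had]
    have : (2 : ℝ) ^ 1 ≤ 2 ^ d := pow_le_pow_right₀ (by norm_num) hd1
    nlinarith
  have hapow : a ^ (d - 1) = (X : ℝ) ^ (1 - 1 / (d : ℝ)) := by
    rw [ha, ← Real.rpow_natCast, ← Real.rpow_mul hX0]
    congr 1
    rw [Nat.cast_sub hd1]
    push_cast
    field_simp
  have hapow0 : 0 ≤ a ^ (d - 1) := by positivity
  have ha2pow : ((1 + 1 / s) * a₂) ^ (d - 1) ≤ ((1 + 1 / s) * 2) ^ (d - 1) * a ^ (d - 1) := by
    rw [← mul_pow]
    have ha20 : 0 ≤ a₂ := by linarith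
    refine pow_le_pow_left₀ (mul_nonneg (by positivity) ha20) ?_ _
    rw [mul_assoc]
    exact mul_le_mul_of_nonneg_left ha22 (by positivity)
  have hthX : th s d t X = s * a + t := by rw [ha]; rfl
  have hthX2 : th s d t (2 * X) = s * a₂ + t := by rw [ha₂]; rfl
  have hthle : th s d t X ≤ th s d t (2 * X) := by
    rw [hthX, hthX2]
    nlinarith
  have hfl : ⌊th s d t X⌋ ≤ ⌊th s d t (2 * X)⌋ := Int.floor_mono hthle
  obtain ⟨K, hK⟩ : ∃ K : ℕ, ⌊th s d t X⌋ + (K : ℤ) = ⌊th s d t (2 * X)⌋ :=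
    ⟨(⌊th s d t (2 * X)⌋ - ⌊th s d t X⌋).toNat, by omega⟩
  obtain ⟨hup, hlo⟩ := sum_bounds (s := s) (d := d) (t := t) (X := X) hs hd1 hκ hκ1 K hK
  -- the four values of `G`
  have e1 : G s d t (⌊th s d t (2 * X)⌋ + 1) ≤ 2 * X + C₀ * a ^ (d - 1) := by
    have h1 : G s d t (⌊th s d t (2 * X)⌋ + 1) ≤ G s d t (s * a₂ + t + 1) := by
      refine G_mono hs ?_
      have := Int.floor_le (th s d t (2 * X))
      rw [hthX2] at this ⊢
      linarith
    have h2 := G_above (s := s) (d := d) (t := t) hs hd1 (ha1.trans haa)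
    have h3 : d * (1 / s) * ((1 + 1 / s) * a₂) ^ (d - 1) ≤ C₀ * a ^ (d - 1) := by
      rw [hC₀, mul_assoc (d * (1 / s))]
      exact mul_le_mul_of_nonneg_left ha2pow (by positivity)
    rw [had2] at h2
    linarith
  have hsmall : ∀ b : ℝ, 0 ≤ b → b ≤ 2 * a → d * (1 / s) * b ^ (d - 1) ≤ C₀ * a ^ (d - 1) := by
    intro b hb hb2
    rw [hC₀, mul_assoc (d * (1 / s)), ← mul_pow]
    refine mul_le_mul_of_nonneg_left (pow_le_pow_left₀ hb (hb2.trans ?_) _) (by positivity)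
    have : 0 < 1 / s := by positivity
    nlinarith
  have e2 : X - C₀ * a ^ (d - 1) ≤ G s d t ⌊th s d t X⌋ := by
    have h1 : G s d t (s * a + t - 1) ≤ G s d t ⌊th s d t X⌋ := by
      refine G_mono hs ?_
      have := Int.sub_one_lt_floor (th s d t X)
      rw [hthX] at this ⊢
      linarith
    have h2 := G_below (s := s) (d := d) (t := t) hs hd1 (a := a) (v := 1) (by linarith) (by norm_num)
    have h3 := hsmall a (by linarith) (by linarith)
    rw [had] at h2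
    linarith
  have e3 : 2 * X - 2 * (C₀ * a ^ (d - 1)) ≤ G s d t (⌊th s d t (2 * X)⌋ - 1) := by
    have h1 : G s d t (s * a₂ + t - 2) ≤ G s d t (⌊th s d t (2 * X)⌋ - 1) := by
      refine G_mono hs ?_
      have := Int.sub_one_lt_floor (th s d t (2 * X))
      rw [hthX2] at this ⊢
      linarith
    have h2 := G_below (s := s) (d := d) (t := t) hs hd1 (a := a₂) (v := 2) (by linarith) (by norm_num)
    have h3 := hsmall a₂ (by linarith) ha22
    rw [had2] at h2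
    have h4 : (d : ℝ) * (2 / s) * a₂ ^ (d - 1) = 2 * (d * (1 / s) * a₂ ^ (d - 1)) := by ring
    linarith
  have e4 : G s d t ⌊th s d t X⌋ ≤ X := (G_le_iff hs hd1 hX0 _).2 (Int.floor_le _)
  -- the count
  have hcount : (#((TT s d t κ X).filter (fun n : ℕ => n ≡ r [MOD q])) : ℝ) =
      ∑ j ∈ range (K + 1), (#((Ico ⌈Hc s d t X (⌊th s d t X⌋ + j)⌉₊
        ⌈Hc s d t X (⌊th s d t X⌋ + j + κ)⌉₊).filter (fun n : ℕ => n ≡ r [MOD q])) : ℝ) := by
    have h1 := Finset.card_eq_sum_card_fiberwise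
      (s := (TT s d t κ X).filter (fun n : ℕ => n ≡ r [MOD q])) (t := range (K + 1))
      (f := fun n : ℕ => (⌊th s d t n⌋ - ⌊th s d t X⌋).toNat) (by
        intro n hn
        rw [mem_coe, mem_filter, mem_TT] at hn
        rw [mem_coe, mem_range]
        have h2 : (n : ℝ) ≤ 2 * X := by exact_mod_cast hn.1.1.2.le
        have h3 : th s d t n ≤ th s d t (2 * X) := by
          unfold th
          have := Real.rpow_le_rpow (Nat.cast_nonneg n) h2 (by positivity : (0 : ℝ) ≤ 1 / (d : ℝ))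
          nlinarith
        have h4 := Int.floor_mono h3
        show (⌊th s d t n⌋ - ⌊th s d t X⌋).toNat < K + 1
        omega)
    rw [h1]
    push_cast
    refine Finset.sum_congr rfl fun j _ => ?_
    have h2 := fiber_eq (s := s) (d := d) (t := t) (X := X) hs hd1 hκ1 q r (⌊th s d t X⌋ + (j : ℤ))
    push_cast at h2
    rw [← h2]
    congr 2
    ext n
    rw [mem_filter, mem_filter (p := fun n : ℕ => ⌊th s d t n⌋ = ⌊th s d t X⌋ + (j : ℤ)), and_congr_right_iff]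
    intro hn
    rw [mem_filter, mem_TT] at hn
    have h3 : (X : ℝ) ≤ n := by exact_mod_cast hn.1.1.1
    have h4 : th s d t X ≤ th s d t n := by
      unfold th
      have := Real.rpow_le_rpow hX0 h3 (by positivity : (0 : ℝ) ≤ 1 / (d : ℝ))
      nlinarith
    have h5 := Int.floor_mono h4
    omega
  have hq0 : (1 : ℝ) ≤ q := by exact_mod_cast hq
  have hdiff : |(#((TT s d t κ X).filter (fun n : ℕ => n ≡ r [MOD q])) : ℝ) -
      (∑ j ∈ range (K + 1), (Hc s d t X (⌊th s d t X⌋ + j + κ) - Hc s d t X (⌊th s d t X⌋ + j))) / q| ≤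
      2 * (K + 1) := by
    rw [hcount, Finset.sum_div, ← Finset.sum_sub_distrib]
    refine (Finset.abs_sum_le_sum_abs _ _).trans ?_
    have h1 : ∀ j ∈ range (K + 1), |(#((Ico ⌈Hc s d t X (⌊th s d t X⌋ + j)⌉₊
        ⌈Hc s d t X (⌊th s d t X⌋ + j + κ)⌉₊).filter (fun n : ℕ => n ≡ r [MOD q])) : ℝ) -
        (Hc s d t X (⌊th s d t X⌋ + j + κ) - Hc s d t X (⌊th s d t X⌋ + j)) / q| ≤ 2 := by
      intro j _
      exact card_class_real q r hq (hX0.trans (Hc_ge _)) (Hc_mono hs (by linarith))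
    refine (Finset.sum_le_sum h1).trans ?_
    rw [Finset.sum_const, card_range, nsmul_eq_mul]
    push_cast
    linarith
  have hKb : (K : ℝ) + 1 ≤ (s + 2) * a := by
    have h1 : (K : ℝ) = (⌊th s d t (2 * X)⌋ : ℝ) - ⌊th s d t X⌋ := by
      rw [← hK]
      push_cast
      ring
    have h2 := Int.floor_le (th s d t (2 * X))
    have h3 := Int.sub_one_lt_floor (th s d t X)
    rw [hthX2] at h2
    rw [hthX] at h3
    rw [hthX] at h1
    rw [hthX2] at h1
    nlinarith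
  obtain ⟨Sg, hSg⟩ : ∃ Sg : ℝ, Sg = ∑ j ∈ range (K + 1),
    (Hc s d t X (⌊th s d t X⌋ + j + κ) - Hc s d t X (⌊th s d t X⌋ + j)) := ⟨_, rfl⟩
  rw [← hSg] at hup hlo hdiff
  have hW : 0 ≤ C₀ * a ^ (d - 1) := by positivity
  have hS1 : |Sg - κ * X| ≤ κ * (4 * (C₀ * a ^ (d - 1))) := by
    rw [abs_le]
    constructor
    · have : κ * (X - 2 * (C₀ * a ^ (d - 1))) ≤ κ * (G s d t (⌊th s d t (2 * X)⌋ - 1) - G s d t ⌊th s d t X⌋) :=
        mul_le_mul_of_nonneg_left (by linarith) hκ.le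
      nlinarith
    · have : κ * (G s d t (⌊th s d t (2 * X)⌋ + 1) - G s d t ⌊th s d t X⌋) ≤ κ * (X + 2 * (C₀ * a ^ (d - 1))) :=
        mul_le_mul_of_nonneg_left (by linarith) hκ.le
      nlinarith
  have hS2 : |Sg / q - κ * ((X : ℝ) / q)| ≤ κ * (4 * (C₀ * a ^ (d - 1))) := by
    have e : Sg / q - κ * ((X : ℝ) / q) = (Sg - κ * X) / q := by ring
    rw [e, abs_div, abs_of_pos (by linarith : (0 : ℝ) < q)]
    exact (div_le_self (abs_nonneg _) hq0).trans hS1
  rw [← hapow, ← ha]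
  have hfin : |(#((TT s d t κ X).filter (fun n : ℕ => n ≡ r [MOD q])) : ℝ) - κ * ((X : ℝ) / q)| ≤
      2 * (K + 1) + κ * (4 * (C₀ * a ^ (d - 1))) := by
    have := abs_sub_le (#((TT s d t κ X).filter (fun n : ℕ => n ≡ r [MOD q])) : ℝ) (Sg / q) (κ * ((X : ℝ) / q))
    linarith
  refine hfin.trans ?_
  have h1 : 0 ≤ κ * a ^ (d - 1) := by positivity
  have h2 : 0 ≤ C₀ * a := by positivity
  nlinarith

end Run7.h56.MC
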