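import Pool.Agent.Run7.h994.BP.FMa

/-!
# Project MC (helper994), piece PRQ, part a: from the triangle functions and the von Mangoldt function to
# intervals and primes (helper56)
-/

set_option autoImplicit false

namespace Run7.h56.MC

open Finset
open Pool.Agent.N792 (tri)

lemma tri_ge {δ : ℝ} (hδ : 0 < δ) (x : ℝ) (m : ℤ) : 1 - |x - m| / δ ≤ tri δ x := by
  unfold Pool.Agent.N792.tri
  refine le_max_of_le_right ?_
  have h := round_le x m
  have h2 : |x - round x| / δ ≤ |x - m| / δ := by gcongr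
  linarith

lemma tri_nn (δ x : ℝ) : 0 ≤ tri δ x := le_max_left _ _

/-- the sum of the triangle functions is at least one on the interval -/
lemma sum_tri_ge {δ : ℝ} (hδ : 0 < δ) (x : ℝ) (m : ℤ) (Y : ℕ) (h1 : m - δ ≤ x)
    (h2 : x < m + ((Y : ℝ) + 1) * δ) :
    1 ≤ ∑ j ∈ range (Y + 3), tri δ (x + -(((j : ℝ) - 1) * δ)) := by
  obtain ⟨u, hu⟩ : ∃ u : ℝ, u = (x - m) / δ + 1 := ⟨_, rfl⟩
  have hx : x = m + (u - 1) * δ := by
    rw [hu]
    field_simp
    ring
  have hu0 : 0 ≤ u := by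
    have : -1 ≤ (x - m) / δ := by
      rw [le_div_iff₀ hδ]
      linarith
    linarith
  have hu1 : u < Y + 2 := by
    have : (x - m) / δ < Y + 1 := by
      rw [div_lt_iff₀ hδ]
      linarith
    linarith
  obtain ⟨i, hi⟩ : ∃ i : ℕ, i = ⌊u⌋₊ := ⟨_, rfl⟩
  have hi1 : (i : ℝ) ≤ u := by rw [hi]; exact Nat.floor_le hu0
  have hi2 : u < i + 1 := by rw [hi]; exact Nat.lt_floor_add_one u
  have hi3 : i < Y + 2 := by
    have : (i : ℝ) < Y + 2 := hi1.trans_lt hu1
    exact_mod_cast this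
  have hsub : ({i, i + 1} : Finset ℕ) ⊆ range (Y + 3) := by
    intro j hj
    rw [mem_insert, mem_singleton] at hj
    rw [mem_range]
    omega
  have h3 := Finset.sum_le_sum_of_subset_of_nonneg (f := fun j : ℕ => tri δ (x + -(((j : ℝ) - 1) * δ))) hsub
    (fun j _ _ => tri_nn _ _)
  rw [Finset.sum_pair (by omega)] at h3
  have ha := tri_ge hδ (x + -(((i : ℝ) - 1) * δ)) m
  have hb := tri_ge hδ (x + -((((i + 1 : ℕ) : ℝ) - 1) * δ)) m
  have ea : |x + -(((i : ℝ) - 1) * δ) - m| / δ = u - i := by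
    have : x + -(((i : ℝ) - 1) * δ) - m = (u - i) * δ := by rw [hx]; ring
    rw [this, abs_mul, abs_of_pos hδ, abs_of_nonneg (by linarith)]
    field_simp
  have eb : |x + -((((i + 1 : ℕ) : ℝ) - 1) * δ) - m| / δ = i + 1 - u := by
    have : x + -((((i + 1 : ℕ) : ℝ) - 1) * δ) - m = -((i + 1 - u) * δ) := by
      rw [hx]
      push_cast
      ring
    rw [this, abs_neg, abs_mul, abs_of_pos hδ, abs_of_nonneg (by linarith)]
    field_simp
  rw [ea] at ha
  rw [eb] at hb
  linarith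

open Classical in
/-- from the triangle functions to the indicator function -/
lemma sandwich {V : Finset ℕ} {θ : ℕ → ℝ} {I : ℕ → Prop} {δ η : ℝ} {Y : ℕ} (hδ : 0 < δ) (hY : 3 ≤ Y)
    (hYδ : (Y : ℝ) * δ ≤ 1 / 4)
    (hI1 : ∀ v ∈ V, I v → ∃ m : ℤ, m - δ ≤ θ v ∧ θ v < m + ((Y : ℝ) + 1) * δ)
    (hI2 : ∀ v ∈ V, 0 < Int.fract (θ v - δ) → Int.fract (θ v - δ) < ((Y : ℝ) - 2) * δ → I v)
    (hT : ∀ t : ℝ, |∑ v ∈ V, ArithmeticFunction.vonMangoldt v * tri δ (θ v + t) -
      δ * ∑ v ∈ V, ArithmeticFunction.vonMangoldt v| ≤ η) :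
    |∑ v ∈ V, ArithmeticFunction.vonMangoldt v * (if I v then (1 : ℝ) else 0) -
      Y * δ * ∑ v ∈ V, ArithmeticFunction.vonMangoldt v| ≤
      3 * δ * ∑ v ∈ V, ArithmeticFunction.vonMangoldt v + (Y + 3) * η := by
  obtain ⟨W, hW⟩ : ∃ W : ℝ, W = ∑ v ∈ V, ArithmeticFunction.vonMangoldt v := ⟨_, rfl⟩
  rw [← hW] at hT ⊢
  have hη : 0 ≤ η := (abs_nonneg _).trans (hT 0)
  -- upper
  have hup : ∑ v ∈ V, ArithmeticFunction.vonMangoldt v * (if I v then (1 : ℝ) else 0) ≤
      (Y + 3) * (δ * W + η) := by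
    have h1 : ∑ v ∈ V, ArithmeticFunction.vonMangoldt v * (if I v then (1 : ℝ) else 0) ≤
        ∑ v ∈ V, ArithmeticFunction.vonMangoldt v *
          ∑ j ∈ range (Y + 3), tri δ (θ v + -(((j : ℝ) - 1) * δ)) := by
      refine Finset.sum_le_sum fun v hv => ?_
      refine mul_le_mul_of_nonneg_left ?_ ArithmeticFunction.vonMangoldt_nonneg
      split_ifs with h
      · obtain ⟨m, hm1, hm2⟩ := hI1 v hv h
        exact sum_tri_ge hδ _ m Y hm1 hm2
      · exact Finset.sum_nonneg fun j _ => tri_nn _ _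
    refine h1.trans ?_
    simp only [Finset.mul_sum]
    rw [Finset.sum_comm]
    have h2 : ∀ j ∈ range (Y + 3), ∑ v ∈ V, ArithmeticFunction.vonMangoldt v *
        tri δ (θ v + -(((j : ℝ) - 1) * δ)) ≤ δ * W + η := fun j _ => by
      have := (abs_le.1 (hT (-(((j : ℝ) - 1) * δ)))).2
      linarith
    refine (Finset.sum_le_sum h2).trans ?_
    rw [Finset.sum_const, card_range, nsmul_eq_mul]
    push_cast
    exact le_rfl
  -- lower
  have hlo : ((Y : ℝ) - 3) * (δ * W - η) ≤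
      ∑ v ∈ V, ArithmeticFunction.vonMangoldt v * (if I v then (1 : ℝ) else 0) := by
    obtain ⟨k, rfl⟩ : ∃ k, Y = k + 3 := ⟨Y - 3, by omega⟩
    have hk : ((k : ℝ) + 1) * δ ≤ 1 / 2 := by
      push_cast at hYδ
      nlinarith
    have h1 : ∑ v ∈ V, ArithmeticFunction.vonMangoldt v *
          ∑ j ∈ range k, tri δ (θ v - δ + -(((j : ℝ) + 1) * δ)) ≤
        ∑ v ∈ V, ArithmeticFunction.vonMangoldt v * (if I v then (1 : ℝ) else 0) := by
      refine Finset.sum_le_sum fun v hv => ?_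
      refine mul_le_mul_of_nonneg_left ?_ ArithmeticFunction.vonMangoldt_nonneg
      refine (Run7.h994.BP.sum_tri_le hδ (θ v - δ) k hk).trans ?_
      split_ifs with h h' h'
      · exact le_rfl
      · exfalso
        refine h' (hI2 v hv h.1 ?_)
        push_cast
        have e : (k : ℝ) + 3 - 2 = k + 1 := by ring
        rw [e]
        exact h.2
      · exact zero_le_one
      · exact le_rfl
    refine le_trans ?_ h1
    simp only [Finset.mul_sum]
    rw [Finset.sum_comm]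
    have h2 : ∀ j ∈ range k, δ * W - η ≤ ∑ v ∈ V, ArithmeticFunction.vonMangoldt v *
        tri δ (θ v - δ + -(((j : ℝ) + 1) * δ)) := fun j _ => by
      have h3 := (abs_le.1 (hT (-δ + -(((j : ℝ) + 1) * δ)))).1
      have e : ∑ v ∈ V, ArithmeticFunction.vonMangoldt v * tri δ (θ v + (-δ + -(((j : ℝ) + 1) * δ))) =
          ∑ v ∈ V, ArithmeticFunction.vonMangoldt v * tri δ (θ v - δ + -(((j : ℝ) + 1) * δ)) := by
        refine Finset.sum_congr rfl fun v _ => ?_
        congr 2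
        ring
      rw [e] at h3
      linarith
    refine le_trans ?_ (Finset.sum_le_sum h2)
    rw [Finset.sum_const, card_range, nsmul_eq_mul]
    push_cast
    have e : (k : ℝ) + 3 - 3 = k := by ring
    rw [e]
  have hY3 : (3 : ℝ) ≤ Y := by exact_mod_cast hY
  rw [abs_le]
  constructor
  · nlinarith
  · nlinarith

/-- partial summation -/
lemma abel (f w : ℕ → ℝ) (N : ℕ) (B : ℝ) (hw : Antitone w) (hw0 : ∀ n, 0 ≤ w n)
    (hF : ∀ n ≤ N, |∑ i ∈ range n, f i| ≤ B) : |∑ i ∈ range N, w i * f i| ≤ w 0 * B := by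
  have hB : 0 ≤ B := (abs_nonneg _).trans (hF 0 (Nat.zero_le _))
  rcases Nat.eq_zero_or_pos N with h0 | h0
  · subst h0
    simp only [range_zero, sum_empty, abs_zero]
    exact mul_nonneg (hw0 0) hB
  · have h1 := Finset.sum_range_by_parts w f N
    simp only [smul_eq_mul] at h1
    rw [h1]
    have h2 : |w (N - 1) * ∑ i ∈ range N, f i| ≤ w (N - 1) * B := by
      rw [abs_mul, abs_of_nonneg (hw0 _)]
      exact mul_le_mul_of_nonneg_left (hF N le_rfl) (hw0 _)
    have h3 : |∑ i ∈ range (N - 1), (w (i + 1) - w i) * ∑ j ∈ range (i + 1), f j| ≤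
        (w 0 - w (N - 1)) * B := by
      refine (Finset.abs_sum_le_sum_abs _ _).trans ?_
      have h4 : ∀ i ∈ range (N - 1), |(w (i + 1) - w i) * ∑ j ∈ range (i + 1), f j| ≤
          (w i - w (i + 1)) * B := by
        intro i hi
        rw [mem_range] at hi
        have h5 := hw (Nat.le_succ i)
        rw [Nat.succ_eq_add_one] at h5
        rw [abs_mul, abs_of_nonpos (by linarith), neg_sub]
        exact mul_le_mul_of_nonneg_left (hF (i + 1) (by omega)) (by linarith)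
      refine (Finset.sum_le_sum h4).trans ?_
      rw [← Finset.sum_mul, Finset.sum_range_sub' w]
    have h6 := abs_sub (w (N - 1) * ∑ i ∈ range N, f i)
      (∑ i ∈ range (N - 1), (w (i + 1) - w i) * ∑ j ∈ range (i + 1), f j)
    have h7 : w (N - 1) * B + (w 0 - w (N - 1)) * B = w 0 * B := by ring
    linarith

lemma sum_Ioc_range (g : ℕ → ℝ) (a b : ℕ) (hab : a ≤ b) :
    ∑ v ∈ Ioc a b, g v = ∑ i ∈ range (b - a), g (a + 1 + i) := by
  have e : Ioc a b = Ico (a + 1) (b + 1) := by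
    ext n
    rw [mem_Ioc, mem_Ico]
    omega
  rw [e, Finset.sum_Ico_eq_sum_range]
  congr 2
  omega

open Classical in
/-- from the von Mangoldt function to the primes -/
lemma to_primes {X₁ X' q r : ℕ} {I : ℕ → Prop} {κ B : ℝ} (hX : X₁ ≤ X') (h3 : 2 ≤ X₁) (hκ : 0 ≤ κ)
    (hκ1 : κ ≤ 1)
    (hF : ∀ y : ℕ, X₁ ≤ y → y ≤ X' →
      |∑ v ∈ (Ioc X₁ y).filter (fun v : ℕ => v ≡ r [MOD q]),
        ArithmeticFunction.vonMangoldt v * (if I v then (1 : ℝ) else 0) -
      κ * ∑ v ∈ (Ioc X₁ y).filter (fun v : ℕ => v ≡ r [MOD q]), ArithmeticFunction.vonMangoldt v| ≤ B) :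
    |(#((Ioc X₁ X').filter (fun v : ℕ => v ≡ r [MOD q] ∧ v.Prime ∧ I v)) : ℝ) -
      κ * #((Ioc X₁ X').filter (fun v : ℕ => v ≡ r [MOD q] ∧ v.Prime))| ≤
      B + (Chebyshev.psi X' - Chebyshev.theta X') := by
  obtain ⟨h, hh⟩ : ∃ h : ℕ → ℝ, h = fun v => if v ≡ r [MOD q] then
      ArithmeticFunction.vonMangoldt v * ((if I v then (1 : ℝ) else 0) - κ) else 0 := ⟨_, rfl⟩
  have hB : 0 ≤ B := (abs_nonneg _).trans (hF X₁ le_rfl hX)
  have hsum : ∀ y : ℕ, ∑ v ∈ (Ioc X₁ y).filter (fun v : ℕ => v ≡ r [MOD q]),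
        ArithmeticFunction.vonMangoldt v * (if I v then (1 : ℝ) else 0) -
      κ * ∑ v ∈ (Ioc X₁ y).filter (fun v : ℕ => v ≡ r [MOD q]), ArithmeticFunction.vonMangoldt v =
      ∑ v ∈ Ioc X₁ y, h v := by
    intro y
    rw [Finset.mul_sum, ← Finset.sum_sub_distrib, Finset.sum_filter, hh]
    refine Finset.sum_congr rfl fun v _ => ?_
    simp only
    split_ifs <;> ring
  have hpart : ∀ n ≤ X' - X₁, |∑ i ∈ range n, h (X₁ + 1 + i)| ≤ B := by
    intro n hn
    have h1 := hF (X₁ + n) (by omega) (by omega)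
    rw [hsum, sum_Ioc_range h X₁ (X₁ + n) (by omega)] at h1
    have e : X₁ + n - X₁ = n := by omega
    rw [e] at h1
    exact h1
  have hlog1 : ∀ v : ℕ, X₁ < v → 1 ≤ Real.log v := by
    intro v hv
    have hv3 : (3 : ℝ) ≤ v := by exact_mod_cast (by omega : 3 ≤ v)
    rw [Real.le_log_iff_exp_le (by linarith)]
    have := Real.exp_one_lt_d9
    linarith
  have hA := abel (fun i => h (X₁ + 1 + i)) (fun i => 1 / Real.log ((X₁ + 1 + i : ℕ) : ℝ)) (X' - X₁) B (by
    intro i j hij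
    have h1 := hlog1 (X₁ + 1 + i) (by omega)
    have h2 : Real.log ((X₁ + 1 + i : ℕ) : ℝ) ≤ Real.log ((X₁ + 1 + j : ℕ) : ℝ) := by
      refine Real.log_le_log (by positivity) ?_
      exact_mod_cast (by omega : X₁ + 1 + i ≤ X₁ + 1 + j)
    exact one_div_le_one_div_of_le (by linarith) h2) (by
    intro i
    have h1 := hlog1 (X₁ + 1 + i) (by omega)
    positivity) hpart
  rw [← sum_Ioc_range (fun v : ℕ => 1 / Real.log (v : ℝ) * h v) X₁ X' hX] at hA
  have hw0 : 1 / Real.log ((X₁ + 1 + 0 : ℕ) : ℝ) * B ≤ B := by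
    have h1 := hlog1 (X₁ + 1 + 0) (by omega)
    have h2 : 1 / Real.log ((X₁ + 1 + 0 : ℕ) : ℝ) ≤ 1 := by
      rw [div_le_one (by linarith)]
      exact h1
    nlinarith
  have hA2 := hA.trans hw0
  -- the primes
  have hP : (#((Ioc X₁ X').filter (fun v : ℕ => v ≡ r [MOD q] ∧ v.Prime ∧ I v)) : ℝ) -
      κ * #((Ioc X₁ X').filter (fun v : ℕ => v ≡ r [MOD q] ∧ v.Prime)) =
      ∑ v ∈ Ioc X₁ X', if v.Prime then 1 / Real.log (v : ℝ) * h v else 0 := by
    rw [Finset.card_filter, Finset.card_filter]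
    push_cast
    rw [Finset.mul_sum, ← Finset.sum_sub_distrib]
    refine Finset.sum_congr rfl fun v hv => ?_
    rw [mem_Ioc] at hv
    have h1 := hlog1 v hv.1
    rw [hh]
    simp only
    by_cases hp : v.Prime
    · rw [if_pos hp, ArithmeticFunction.vonMangoldt_apply_prime hp]
      by_cases hq : v ≡ r [MOD q]
      · by_cases hI : I v
        · rw [if_pos ⟨hq, hp, hI⟩, if_pos ⟨hq, hp⟩, if_pos hq, if_pos hI]
          field_simp
        · rw [if_neg (fun h => hI h.2.2), if_pos ⟨hq, hp⟩, if_pos hq, if_neg hI]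
          field_simp
      · rw [if_neg (fun h => hq h.1), if_neg (fun h => hq h.1), if_neg hq]
        ring
    · rw [if_neg (fun h => hp h.2.1), if_neg (fun h => hp h.2), if_neg hp]
      ring
  have hN : |∑ v ∈ Ioc X₁ X', if ¬ v.Prime then 1 / Real.log (v : ℝ) * h v else 0| ≤
      Chebyshev.psi X' - Chebyshev.theta X' := by
    rw [Chebyshev.psi_sub_theta_eq_sum_not_prime, Nat.floor_natCast, Finset.sum_filter]
    refine (Finset.abs_sum_le_sum_abs _ _).trans ?_
    refine (Finset.sum_le_sum (g := fun v : ℕ => if ¬ v.Prime then ArithmeticFunction.vonMangoldt v else 0)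
      fun v hv => ?_).trans (Finset.sum_le_sum_of_subset_of_nonneg ?_ ?_)
    · rw [mem_Ioc] at hv
      have h1 := hlog1 v hv.1
      have hΛ : 0 ≤ ArithmeticFunction.vonMangoldt v := ArithmeticFunction.vonMangoldt_nonneg
      by_cases hp : v.Prime
      · simp [hp]
      · rw [if_pos hp, if_pos hp, abs_mul, abs_of_nonneg (by positivity : 0 ≤ 1 / Real.log (v : ℝ))]
        have h2 : |h v| ≤ ArithmeticFunction.vonMangoldt v := by
          rw [hh]
          simp only
          split_ifs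
          · rw [abs_mul, abs_of_nonneg hΛ, abs_of_nonneg (by linarith)]
            nlinarith
          · rw [abs_mul, abs_of_nonneg hΛ, zero_sub, abs_neg, abs_of_nonneg hκ]
            nlinarith
          · rw [abs_zero]
            exact hΛ
        have h3 : 1 / Real.log (v : ℝ) ≤ 1 := by
          rw [div_le_one (by linarith)]
          exact h1
        have h4 : 0 ≤ 1 / Real.log (v : ℝ) := by positivity
        nlinarith [abs_nonneg (h v)]
    · intro v hv
      rw [mem_Ioc] at hv ⊢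
      omega
    · intro v _ _
      by_cases hp : v.Prime
      · simp [hp]
      · rw [if_pos hp]
        exact ArithmeticFunction.vonMangoldt_nonneg
  have hsplit : ∑ v ∈ Ioc X₁ X', 1 / Real.log (v : ℝ) * h v =
      (∑ v ∈ Ioc X₁ X', if v.Prime then 1 / Real.log (v : ℝ) * h v else 0) +
      ∑ v ∈ Ioc X₁ X', if ¬ v.Prime then 1 / Real.log (v : ℝ) * h v else 0 := by
    rw [← Finset.sum_add_distrib]
    refine Finset.sum_congr rfl fun v _ => ?_
    by_cases hp : v.Prime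
    · simp [hp]
    · simp [hp]
  rw [hsplit] at hA2
  rw [hP]
  obtain ⟨u, hu⟩ : ∃ u : ℝ, u = ∑ v ∈ Ioc X₁ X', if v.Prime then 1 / Real.log (v : ℝ) * h v else 0 := ⟨_, rfl⟩
  obtain ⟨w, hw⟩ : ∃ w : ℝ, w = ∑ v ∈ Ioc X₁ X', if ¬ v.Prime then 1 / Real.log (v : ℝ) * h v else 0 := ⟨_, rfl⟩
  rw [← hu, ← hw] at hA2
  rw [← hw] at hN
  rw [← hu]
  rw [abs_le] at hA2 hN ⊢
  constructor <;> linarith [hA2.1, hA2.2, hN.1, hN.2]

end Run7.h56.MC
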