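import Pool.Agent.Run7.h56.MC.INQ
import Pool.Agent.Run7.h56.MC.PRQa

/-!
# Project MC (helper994), piece PRQ: primes `n + a` with `n` in the thin set, in residue classes (helper56)
-/

set_option autoImplicit false

namespace Run7.h56.MC

open Finset Filter Topology Run7.h994.MC
open Pool.Agent.N792 (tri)
open Run7.h462.BPG (lam lam_pos lam_le_quarter)

lemma root_diff {d : ℕ} (hd : 2 ≤ d) {X n a : ℕ} (hX : 1 ≤ X) (hn : X ≤ n) :
    ((n + a : ℕ) : ℝ) ^ (1 / (d : ℝ)) ≤ (n : ℝ) ^ (1 / (d : ℝ)) + a * (X : ℝ) ^ (-(1 / 2) : ℝ) := by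
  have hX1 : (1 : ℝ) ≤ X := by exact_mod_cast hX
  have hnX : (X : ℝ) ≤ n := by exact_mod_cast hn
  have hn1 : (1 : ℝ) ≤ n := hX1.trans hnX
  have hn0 : (0 : ℝ) < n := by linarith
  have hdr : (2 : ℝ) ≤ d := by exact_mod_cast hd
  have hd1 : 1 / (d : ℝ) ≤ 1 / 2 := one_div_le_one_div_of_le (by norm_num) hdr
  have hd0 : 0 < 1 / (d : ℝ) := by positivity
  have ha0 : (0 : ℝ) ≤ a := Nat.cast_nonneg a
  have e1 : ((n + a : ℕ) : ℝ) = n * (1 + a / n) := by
    push_cast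
    field_simp
  have h1 : (1 + (a : ℝ) / n) ^ (1 / (d : ℝ)) ≤ 1 + (a : ℝ) / n := by
    have h2 : (1 : ℝ) ≤ 1 + (a : ℝ) / n := by
      have : 0 ≤ (a : ℝ) / n := by positivity
      linarith
    calc (1 + (a : ℝ) / n) ^ (1 / (d : ℝ)) ≤ (1 + (a : ℝ) / n) ^ (1 : ℝ) :=
          Real.rpow_le_rpow_of_exponent_le h2 (by linarith)
      _ = _ := Real.rpow_one _
  rw [e1, Real.mul_rpow hn0.le (by positivity)]
  have h3 : (n : ℝ) ^ (1 / (d : ℝ)) * (1 + (a : ℝ) / n) ^ (1 / (d : ℝ)) ≤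
      (n : ℝ) ^ (1 / (d : ℝ)) * (1 + (a : ℝ) / n) :=
    mul_le_mul_of_nonneg_left h1 (by positivity)
  refine h3.trans ?_
  have h4 : (n : ℝ) ^ (1 / (d : ℝ)) * (1 + (a : ℝ) / n) =
      (n : ℝ) ^ (1 / (d : ℝ)) + a * (n : ℝ) ^ (1 / (d : ℝ) - 1) := by
    rw [Real.rpow_sub_one hn0.ne']
    ring
  rw [h4]
  have h5 : (n : ℝ) ^ (1 / (d : ℝ) - 1) ≤ (n : ℝ) ^ (-(1 / 2) : ℝ) :=
    Real.rpow_le_rpow_of_exponent_le hn1 (by linarith)
  have h6 : (n : ℝ) ^ (-(1 / 2) : ℝ) ≤ (X : ℝ) ^ (-(1 / 2) : ℝ) :=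
    Real.rpow_le_rpow_of_nonpos (by linarith) hnX (by norm_num)
  have h7 := mul_le_mul_of_nonneg_left (h5.trans h6) ha0
  linarith

lemma ev_log {c r : ℝ} (hc : 0 < c) (hr : 0 < r) : ∀ᶠ x : ℝ in atTop, c * Real.log x ≤ x ^ r := by
  have h1 := (isLittleO_log_rpow_atTop hr).bound (by positivity : 0 < 1 / c)
  filter_upwards [h1, eventually_ge_atTop (1 : ℝ)] with x hx hx1
  rw [Real.norm_of_nonneg (Real.log_nonneg hx1), Real.norm_of_nonneg (by positivity)] at hx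
  rw [one_div, inv_mul_eq_div, le_div_iff₀ hc] at hx
  linarith

lemma ev_pow (c : ℝ) {r : ℝ} (hr : 0 < r) : ∀ᶠ x : ℝ in atTop, c ≤ x ^ r :=
  (tendsto_rpow_atTop hr).eventually_ge_atTop c

lemma th_val (s : ℝ) (d : ℕ) (t x : ℝ) : th s d t x = s * x ^ (1 / (d : ℝ)) + t := rfl

lemma th_mono {s : ℝ} (hs : 0 < s) (d : ℕ) (t : ℝ) {x y : ℝ} (hx : 0 ≤ x) (hxy : x ≤ y) :
    th s d t x ≤ th s d t y := by
  unfold th
  have := Real.rpow_le_rpow hx hxy (by positivity : (0 : ℝ) ≤ 1 / (d : ℝ))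
  nlinarith

open Classical in
/-- **PRQ** from TRQ. -/
theorem prq (s : ℝ) (hs : 0 < s) (d : ℕ) (hd : 2 ≤ d) (hTRQ : S_TRQ s d) : S_PRQ s d := by
  intro ε Λ hε hε1 hΛ
  obtain ⟨X₀, hX₀⟩ := hTRQ (ε / 2) (by positivity) (by linarith)
  have hL0 : 0 < lam d := lam_pos (by omega)
  have hL4 : lam d ≤ 1 / 4 := lam_le_quarter d
  have hev : ∀ᶠ x : ℝ in atTop, 3 ≤ x ∧ 4 ≤ x ^ (ε / 32) ∧ s * Λ * Real.log x ≤ x ^ (1 / 4 : ℝ) ∧
      Λ * Real.log x ≤ x ^ (1 : ℝ) ∧ 160 ≤ x ^ (ε / 64) ∧ 16 * Real.log x ≤ x ^ (15 / 64 : ℝ) ∧ 4 ≤ x := by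
    filter_upwards [eventually_ge_atTop (3 : ℝ), ev_pow 4 (by positivity : 0 < ε / 32),
      ev_log (by positivity : 0 < s * Λ) (by norm_num : (0 : ℝ) < 1 / 4), ev_log hΛ one_pos,
      ev_pow 160 (by positivity : 0 < ε / 64), ev_log (by norm_num : (0 : ℝ) < 16)
      (by norm_num : (0 : ℝ) < 15 / 64), eventually_ge_atTop (4 : ℝ)] with x h1 h2 h3 h4 h5 h6 h7
    exact ⟨h1, h2, h3, h4, h5, h6, h7⟩
  obtain ⟨N₀, hN₀⟩ := eventually_atTop.1 (tendsto_natCast_atTop_atTop.eventually hev)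
  refine ⟨max X₀ N₀, ?_⟩
  intro X q r a hX hq hqX ha1 ha κ t hκ hκ4
  obtain ⟨c1, c2, c3, c4, c5, c6, c7⟩ := hN₀ X ((le_max_right _ _).trans hX)
  obtain ⟨x, hx⟩ : ∃ x : ℝ, x = (X : ℝ) := ⟨_, rfl⟩
  rw [← hx] at hqX ha hκ c1 c2 c3 c4 c5 c6 c7 ⊢
  have hx0 : 0 < x := by linarith
  have hx1 : 1 ≤ x := by linarith
  rw [Real.rpow_one] at c4
  have hX1 : 1 ≤ X := by
    have : (1 : ℝ) ≤ (X : ℝ) := by rw [← hx]; exact hx1
    exact_mod_cast this
  have hX3 : 3 ≤ X := by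
    have : (3 : ℝ) ≤ (X : ℝ) := by rw [← hx]; exact c1
    exact_mod_cast this
  have hax : (a : ℝ) ≤ x := ha.trans c4
  have haX : a ≤ X := by
    have : (a : ℝ) ≤ (X : ℝ) := by rw [← hx]; exact hax
    exact_mod_cast this
  have hκ0 : 0 < κ := (by positivity : (0 : ℝ) < x ^ (-lam d + ε)).trans_le hκ
  -- the exponent is negative
  have hεL : ε < lam d := by
    by_contra hcon
    push Not at hcon
    have h1 : 1 ≤ x ^ (-lam d + ε) := Real.one_le_rpow hx1 (by linarith)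
    linarith
  -- Y
  obtain ⟨Y, hY⟩ : ∃ Y : ℕ, Y = ⌈x ^ (ε / 32)⌉₊ := ⟨_, rfl⟩
  have hY1 : x ^ (ε / 32) ≤ Y := by rw [hY]; exact Nat.le_ceil _
  have hY2 : (Y : ℝ) ≤ 2 * x ^ (ε / 32) := by
    have := Nat.ceil_lt_add_one (by positivity : 0 ≤ x ^ (ε / 32))
    rw [← hY] at this
    linarith
  have hY4 : (4 : ℝ) ≤ Y := c2.trans hY1
  have hY3 : 3 ≤ Y := by
    have : (3 : ℝ) ≤ Y := by linarith
    exact_mod_cast this
  have hY0 : (0 : ℝ) < Y := by linarith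
  obtain ⟨δ, hδ⟩ : ∃ δ : ℝ, δ = κ / Y := ⟨_, rfl⟩
  have hδ0 : 0 < δ := by rw [hδ]; positivity
  have hYδ : (Y : ℝ) * δ = κ := by
    rw [hδ]
    field_simp
  have hδκ : δ ≤ κ := by
    rw [hδ]
    exact div_le_self hκ0.le (by linarith)
  have hδlow : x ^ (-lam d + ε / 2) ≤ δ := by
    rw [hδ, le_div_iff₀ hY0]
    refine le_trans ?_ hκ
    calc x ^ (-lam d + ε / 2) * Y ≤ x ^ (-lam d + ε / 2) * (2 * x ^ (ε / 32)) := by gcongr
      _ ≤ x ^ (-lam d + ε / 2) * (x ^ (ε / 32) * x ^ (ε / 32)) := by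
          gcongr
          linarith
      _ = x ^ (-lam d + ε / 2 + (ε / 32 + ε / 32)) := by
          rw [← Real.rpow_add hx0, ← Real.rpow_add hx0]
      _ ≤ x ^ (-lam d + ε) := Real.rpow_le_rpow_of_exponent_le hx1 (by linarith)
  -- the shift
  obtain ⟨X₁, hX₁⟩ : ∃ X₁ : ℕ, X₁ = X + a - 1 := ⟨_, rfl⟩
  obtain ⟨X', hX'⟩ : ∃ X' : ℕ, X' = 2 * X + a - 1 := ⟨_, rfl⟩
  obtain ⟨x₁, hx₁⟩ : ∃ x₁ : ℝ, x₁ = (X₁ : ℝ) := ⟨_, rfl⟩
  have hXX₁ : X ≤ X₁ := by omega
  have hx₁x : x ≤ x₁ := by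
    rw [hx, hx₁]
    exact_mod_cast hXX₁
  have hx₁2 : x₁ ≤ 2 * x := by
    have : X₁ ≤ 2 * X := by omega
    rw [hx, hx₁]
    exact_mod_cast this
  have hx₁0 : 0 < x₁ := by linarith
  have hX'3 : (X' : ℝ) ≤ 3 * x := by
    have : X' ≤ 3 * X := by omega
    rw [hx]
    exact_mod_cast this
  have hX'1 : (1 : ℝ) ≤ X' := by exact_mod_cast (by omega : 1 ≤ X')
  have hdiff : ∀ n : ℕ, X ≤ n → th s d t n ≤ th s d t ((n + a : ℕ) : ℝ) ∧
      th s d t ((n + a : ℕ) : ℝ) ≤ th s d t n + δ := by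
    intro n hn
    refine ⟨th_mono hs d t (Nat.cast_nonneg n) (by exact_mod_cast (by omega : n ≤ n + a)), ?_⟩
    have h1 := root_diff hd hX1 hn (a := a)
    rw [← hx] at h1
    have h2 : s * (a * x ^ (-(1 / 2) : ℝ)) ≤ δ := by
      calc s * (a * x ^ (-(1 / 2) : ℝ)) ≤ s * (Λ * Real.log x * x ^ (-(1 / 2) : ℝ)) := by gcongr
        _ = (s * Λ * Real.log x) * x ^ (-(1 / 2) : ℝ) := by ring
        _ ≤ x ^ (1 / 4 : ℝ) * x ^ (-(1 / 2) : ℝ) := by gcongr
        _ = x ^ (-(1 / 4) : ℝ) := by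
            rw [← Real.rpow_add hx0]
            norm_num
        _ ≤ x ^ (-lam d + ε / 2) := Real.rpow_le_rpow_of_exponent_le hx1 (by linarith)
        _ ≤ δ := hδlow
    rw [th_val, th_val]
    nlinarith
  -- the estimate for the triangle functions
  have hTT : ∀ y : ℕ, X₁ ≤ y → y ≤ X' → ∀ t' : ℝ,
      |∑ v ∈ (Ioc X₁ y).filter (fun v : ℕ => v ≡ r + a [MOD q]),
        ArithmeticFunction.vonMangoldt v * tri δ (th s d t v + t') -
      δ * ∑ v ∈ (Ioc X₁ y).filter (fun v : ℕ => v ≡ r + a [MOD q]), ArithmeticFunction.vonMangoldt v| ≤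
      δ * x₁ ^ (1 - ε / 16) := by
    intro y hy1 hy2 t'
    have hq2 : (q : ℝ) ≤ (X₁ : ℝ) ^ (ε / 2 / 16) := by
      rw [← hx₁]
      calc (q : ℝ) ≤ x ^ (ε / 64) := hqX
        _ ≤ x ^ (ε / 2 / 16) := Real.rpow_le_rpow_of_exponent_le hx1 (by linarith)
        _ ≤ x₁ ^ (ε / 2 / 16) := Real.rpow_le_rpow hx0.le hx₁x (by positivity)
    have hδ2 : (X₁ : ℝ) ^ (-lam d + ε / 2) ≤ δ := by
      rw [← hx₁]
      exact (Real.rpow_le_rpow_of_nonpos hx0 hx₁x (by linarith)).trans hδlow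
    have h1 := hX₀ X₁ y q (r + a) (((le_max_left _ _).trans hX).trans hXX₁) hy1 (by omega) hq hq2 δ (t + t')
      hδ2 (by linarith)
    rw [← hx₁] at h1
    have e : (1 : ℝ) - ε / 2 / 8 = 1 - ε / 16 := by ring
    rw [e] at h1
    have e2 : ∀ v : ℕ, th s d t v + t' = s * (v : ℝ) ^ (1 / (d : ℝ)) + (t + t') := fun v => by
      rw [th_val]
      ring
    simp only [e2]
    exact h1
  obtain ⟨I, hIdef⟩ : ∃ I : ℕ → Prop, ∀ v, I v ↔ (v - a) ∈ TT s d t κ X := ⟨_, fun _ => Iff.rfl⟩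
  -- the sandwich
  have hmain : ∀ y : ℕ, X₁ ≤ y → y ≤ X' →
      |∑ v ∈ (Ioc X₁ y).filter (fun v : ℕ => v ≡ r + a [MOD q]),
        ArithmeticFunction.vonMangoldt v * (if I v then (1 : ℝ) else 0) -
      κ * ∑ v ∈ (Ioc X₁ y).filter (fun v : ℕ => v ≡ r + a [MOD q]), ArithmeticFunction.vonMangoldt v| ≤
      58 * κ * x ^ (1 - ε / 32) := by
    intro y hy1 hy2
    have h1 := sandwich (V := (Ioc X₁ y).filter (fun v : ℕ => v ≡ r + a [MOD q]))
      (θ := fun v => th s d t v) (I := I) (δ := δ)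
      (η := δ * x₁ ^ (1 - ε / 16)) (Y := Y) hδ0 hY3 (by rw [hYδ]; exact hκ4) (by
        intro v hv hI
        rw [mem_filter, mem_Ioc] at hv
        rw [hIdef, mem_TT] at hI
        have h2 := hdiff (v - a) hI.1.1
        have e : v - a + a = v := by omega
        rw [e] at h2
        refine ⟨⌊th s d t ((v - a : ℕ) : ℝ)⌋, ?_, ?_⟩
        · have := Int.floor_le (th s d t ((v - a : ℕ) : ℝ))
          linarith [h2.1]
        · have h3 := Int.floor_add_fract (th s d t ((v - a : ℕ) : ℝ))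
          have h4 := hI.2
          have h5 : ((Y : ℝ) + 1) * δ = κ + δ := by rw [add_mul, hYδ, one_mul]
          rw [h5]
          linarith [h2.2]) (by
        intro v hv h3 h4
        rw [mem_filter, mem_Ioc] at hv
        have hvX : X ≤ v - a := by omega
        have h2 := hdiff (v - a) hvX
        have e : v - a + a = v := by omega
        rw [e] at h2
        rw [hIdef, mem_TT]
        refine ⟨⟨hvX, by omega⟩, ?_⟩
        have h5 := Int.floor_add_fract (th s d t v - δ)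
        have h6 : ((Y : ℝ) - 2) * δ = κ - 2 * δ := by rw [sub_mul, hYδ]
        rw [h6] at h4
        have h7 : ⌊th s d t ((v - a : ℕ) : ℝ)⌋ = ⌊th s d t v - δ⌋ := by
          rw [Int.floor_eq_iff]
          constructor
          · linarith [h2.2]
          · linarith [h2.1]
        have h8 := Int.floor_add_fract (th s d t ((v - a : ℕ) : ℝ))
        rw [h7] at h8
        linarith [h2.1]) (hTT y hy1 hy2)
    rw [hYδ] at h1
    refine h1.trans ?_
    have hW : ∑ v ∈ (Ioc X₁ y).filter (fun v : ℕ => v ≡ r + a [MOD q]), ArithmeticFunction.vonMangoldt v ≤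
        18 * x := by
      have h2 : ∑ v ∈ (Ioc X₁ y).filter (fun v : ℕ => v ≡ r + a [MOD q]),
          ArithmeticFunction.vonMangoldt v ≤ Chebyshev.psi (X' : ℝ) := by
        rw [Chebyshev.psi, Nat.floor_natCast]
        refine Finset.sum_le_sum_of_subset_of_nonneg ?_ fun _ _ _ => ArithmeticFunction.vonMangoldt_nonneg
        intro v hv
        rw [mem_filter, mem_Ioc] at hv
        rw [mem_Ioc]
        omega
      have h3 := Chebyshev.psi_le_const_mul_self (x := (X' : ℝ)) (by positivity)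
      have h4 : Real.log 4 ≤ 2 := by
        have e : (4 : ℝ) = 2 ^ 2 := by norm_num
        rw [e, Real.log_pow]
        have := Real.log_two_lt_d9
        push_cast
        linarith
      nlinarith
    have hx₁p : x₁ ^ (1 - ε / 16) ≤ 2 * x ^ (1 - ε / 32) := by
      calc x₁ ^ (1 - ε / 16) ≤ (2 * x) ^ (1 - ε / 16) :=
            Real.rpow_le_rpow hx₁0.le hx₁2 (by linarith)
        _ = 2 ^ (1 - ε / 16) * x ^ (1 - ε / 16) := Real.mul_rpow (by norm_num) hx0.le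
        _ ≤ 2 ^ (1 : ℝ) * x ^ (1 - ε / 32) :=
            mul_le_mul (Real.rpow_le_rpow_of_exponent_le (by norm_num) (by linarith))
              (Real.rpow_le_rpow_of_exponent_le hx1 (by linarith)) (by positivity) (by positivity)
        _ = _ := by rw [Real.rpow_one]
    have hδx : δ * x ≤ κ * x ^ (1 - ε / 32) := by
      rw [hδ, Real.rpow_sub hx0, Real.rpow_one, div_mul_eq_mul_div, ← mul_div_assoc]
      gcongr
    have hYη : ((Y : ℝ) + 3) * (δ * x₁ ^ (1 - ε / 16)) ≤ 4 * κ * x ^ (1 - ε / 32) := by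
      have h2 : ((Y : ℝ) + 3) * δ ≤ 2 * κ := by
        rw [← hYδ]
        nlinarith
      calc ((Y : ℝ) + 3) * (δ * x₁ ^ (1 - ε / 16)) = (((Y : ℝ) + 3) * δ) * x₁ ^ (1 - ε / 16) := by ring
        _ ≤ (2 * κ) * (2 * x ^ (1 - ε / 32)) := by gcongr
        _ = _ := by ring
    have h5 : 3 * δ * ∑ v ∈ (Ioc X₁ y).filter (fun v : ℕ => v ≡ r + a [MOD q]),
        ArithmeticFunction.vonMangoldt v ≤ 54 * (δ * x) := by
      have := mul_le_mul_of_nonneg_left hW (by positivity : 0 ≤ 3 * δ)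
      linarith
    linarith
  -- the primes
  have hfin := to_primes (X₁ := X₁) (X' := X') (q := q) (r := r + a)
    (I := I) (κ := κ) (by omega) (by omega) hκ0.le (by linarith) hmain
  have hcA : #((TT s d t κ X).filter (fun n : ℕ => n ≡ r [MOD q] ∧ (n + a).Prime)) =
      #((Ioc X₁ X').filter (fun v : ℕ => v ≡ r + a [MOD q] ∧ v.Prime ∧ I v)) := by
    refine Finset.card_bij (fun n _ => n + a) ?_ ?_ ?_
    · intro n hn
      rw [mem_filter] at hn
      have h1 := (mem_TT.1 hn.1).1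
      rw [mem_filter, mem_Ioc]
      refine ⟨by omega, hn.2.1.add_right a, hn.2.2, ?_⟩
      rw [hIdef, Nat.add_sub_cancel]
      exact hn.1
    · intro n _ n' _ h
      exact Nat.add_right_cancel h
    · intro v hv
      rw [mem_filter, mem_Ioc] at hv
      refine ⟨v - a, ?_, by omega⟩
      rw [mem_filter]
      have e : v - a + a = v := by omega
      refine ⟨(hIdef v).1 hv.2.2.2, ?_, by rw [e]; exact hv.2.2.1⟩
      refine Nat.ModEq.add_right_cancel' a ?_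
      rw [e]
      exact hv.2.1
  have hcB : #((Ico X (2 * X)).filter (fun n : ℕ => n ≡ r [MOD q] ∧ (n + a).Prime)) =
      #((Ioc X₁ X').filter (fun v : ℕ => v ≡ r + a [MOD q] ∧ v.Prime)) := by
    refine Finset.card_bij (fun n _ => n + a) ?_ ?_ ?_
    · intro n hn
      rw [mem_filter, mem_Ico] at hn
      rw [mem_filter, mem_Ioc]
      exact ⟨by omega, hn.2.1.add_right a, hn.2.2⟩
    · intro n _ n' _ h
      exact Nat.add_right_cancel h
    · intro v hv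
      rw [mem_filter, mem_Ioc] at hv
      refine ⟨v - a, ?_, by omega⟩
      rw [mem_filter, mem_Ico]
      have e : v - a + a = v := by omega
      refine ⟨by omega, ?_, by rw [e]; exact hv.2.2⟩
      refine Nat.ModEq.add_right_cancel' a ?_
      rw [e]
      exact hv.2.1
  rw [hcA, hcB]
  refine hfin.trans ?_
  have hpsi : Chebyshev.psi X' - Chebyshev.theta X' ≤ 1 / 2 * (κ * x ^ (1 - ε / 64)) := by
    have h1 := Chebyshev.psi_sub_theta_le hX'1
    have h2 : √(X' : ℝ) ≤ 2 * x ^ (1 / 2 : ℝ) := by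
      rw [← Real.sqrt_eq_rpow, ← Real.sqrt_sq (by norm_num : (0 : ℝ) ≤ 2), ← Real.sqrt_mul (by norm_num)]
      exact Real.sqrt_le_sqrt (by linarith)
    have h3 : Real.log X' ≤ 2 * Real.log x := by
      have : (X' : ℝ) ≤ x ^ 2 := by nlinarith
      have h4 := Real.log_le_log (by linarith) this
      rw [Real.log_pow] at h4
      push_cast at h4
      exact h4
    have h4 : 0 ≤ Real.log x := Real.log_nonneg hx1
    have h5 : 0 ≤ Real.log X' := Real.log_nonneg hX'1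
    have h6 : x ^ (3 / 4 - ε / 64) ≤ κ * x ^ (1 - ε / 64) := by
      calc x ^ (3 / 4 - ε / 64) = x ^ (-(1 / 4) : ℝ) * x ^ (1 - ε / 64) := by
            rw [← Real.rpow_add hx0]
            congr 1
            ring
        _ ≤ κ * x ^ (1 - ε / 64) := by
            gcongr
            exact (Real.rpow_le_rpow_of_exponent_le hx1 (by linarith)).trans hκ
    calc Chebyshev.psi X' - Chebyshev.theta X' ≤ 2 * √(X' : ℝ) * Real.log X' := h1
      _ ≤ 2 * (2 * x ^ (1 / 2 : ℝ)) * (2 * Real.log x) := by gcongr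
      _ = 1 / 2 * (x ^ (1 / 2 : ℝ) * (16 * Real.log x)) := by ring
      _ ≤ 1 / 2 * (x ^ (1 / 2 : ℝ) * x ^ (15 / 64 : ℝ)) := by gcongr
      _ = 1 / 2 * x ^ (47 / 64 : ℝ) := by
          rw [← Real.rpow_add hx0]
          norm_num
      _ ≤ 1 / 2 * x ^ (3 / 4 - ε / 64) :=
          mul_le_mul_of_nonneg_left (Real.rpow_le_rpow_of_exponent_le hx1 (by linarith)) (by norm_num)
      _ ≤ _ := by gcongr
  have h58 : 58 * κ * x ^ (1 - ε / 32) ≤ 1 / 2 * (κ * x ^ (1 - ε / 64)) := by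
    have e : x ^ (1 - ε / 64) = x ^ (1 - ε / 32) * x ^ (ε / 64) := by
      rw [← Real.rpow_add hx0]
      congr 1
      ring
    rw [e]
    have h1 : 0 ≤ κ * x ^ (1 - ε / 32) := by positivity
    nlinarith
  linarith

end Run7.h56.MC
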